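import Pool.Agent.Y5.S2.Stm

/-!
Choice of the scales `K n = K₀ * R ^ n`, `lam = R ^ (5/2)`, `μ = R ^ 2`, `κ = R ^ (-1/2)`,
`γ = κ * exp (-(6/100) * μ)` and of the amplitude `A` (statement `S_SEQ6` of
`Pool.Agent.Y5.S2.Stm`; adapted from `Pool.Agent.Y319.EP.SEQ5`).
-/

open Set Filter Topology

set_option autoImplicit false

namespace Pool.Agent.Y455.NS

open Pool.Agent.Y5.S2

theorem ev_exp (c : ℝ) (k : ℕ) {b : ℝ} (hb : 0 < b) :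
    ∀ᶠ R : ℕ in atTop, c * (R : ℝ) ^ k ≤ Real.exp (b * R) := by
  have h := (isLittleO_pow_exp_pos_mul_atTop k hb).def
    (show (0 : ℝ) < 1 / (|c| + 1) by positivity)
  have h2 := (tendsto_natCast_atTop_atTop (R := ℝ)).eventually h
  filter_upwards [h2] with R hR
  rw [Real.norm_of_nonneg (by positivity), Real.norm_of_nonneg (by positivity)] at hR
  have h3 : |c| * (R : ℝ) ^ k ≤ |c| * (1 / (|c| + 1) * Real.exp (b * R)) :=
    mul_le_mul_of_nonneg_left hR (abs_nonneg c)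
  have h4 : |c| * (1 / (|c| + 1)) ≤ 1 := by
    rw [mul_one_div, div_le_one (by positivity)]
    linarith
  calc c * (R : ℝ) ^ k ≤ |c| * (R : ℝ) ^ k :=
        mul_le_mul_of_nonneg_right (le_abs_self c) (by positivity)
    _ ≤ |c| * (1 / (|c| + 1)) * Real.exp (b * R) := by rw [mul_assoc]; exact h3
    _ ≤ 1 * Real.exp (b * R) := mul_le_mul_of_nonneg_right h4 (Real.exp_pos _).le
    _ = Real.exp (b * R) := one_mul _

theorem t_SEQ6 : S_SEQ6 := by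
  intro ν β D ϱ p K₁ hν hβ hD hϱ1 hϱ2 hK₁
  obtain ⟨c6, hc6⟩ : ∃ c : ℝ, c = (10 ^ 6 * (1 + 100 / β) ^ 4) ^ 10 := ⟨_, rfl⟩
  -- choice of `R`
  obtain ⟨R, hR1, hR2, hR3, hR5, hR6⟩ := (((eventually_ge_atTop K₁).and
    ((eventually_ge_atTop (10 ^ 15)).and
    ((ev_exp 1 p (b := 1 / 10000) (by norm_num)).and
    ((ev_exp (1 / D) 2 (b := 1 / 1000) (by norm_num)).and
    (ev_exp c6 210 (b := 1 / 10 ^ 6) (by norm_num)))))).exists)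
  have hF6 := Fact.mk hR6
  have hF5 := Fact.mk hR5
  have hFc := Fact.mk hc6
  clear hR6 hR5 hc6
  have hRr : (10 : ℝ) ^ 15 ≤ R := by exact_mod_cast hR2
  have hR0 : (0 : ℝ) < R := by linarith [show (0 : ℝ) < 10 ^ 15 by norm_num]
  have hR1' : (1 : ℝ) ≤ R := by linarith [show (1 : ℝ) ≤ 10 ^ 15 by norm_num]
  obtain ⟨S, hS⟩ : ∃ S : ℝ, S = √(R : ℝ) := ⟨_, rfl⟩
  have hS2 : S * S = R := by rw [hS]; exact Real.mul_self_sqrt hR0.le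
  have hS1 : (10 : ℝ) ^ 6 ≤ S := by
    rw [hS]
    apply Real.le_sqrt_of_sq_le
    exact le_trans (by norm_num) hRr
  have hS0 : 0 < S := by linarith [show (0 : ℝ) < 10 ^ 6 by norm_num]
  have hSR : S ≤ R := by nlinarith
  obtain ⟨lam, hlam⟩ : ∃ lam : ℝ, lam = (R : ℝ) ^ 2 * S := ⟨_, rfl⟩
  obtain ⟨μ, hμ⟩ : ∃ μ : ℝ, μ = (R : ℝ) ^ 2 := ⟨_, rfl⟩
  obtain ⟨κ, hκ⟩ : ∃ κ : ℝ, κ = S⁻¹ := ⟨_, rfl⟩
  have hκ0 : 0 < κ := by rw [hκ]; exact inv_pos.mpr hS0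
  have hκS : κ * S = 1 := by rw [hκ]; exact inv_mul_cancel₀ hS0.ne'
  have hκs : κ ≤ 1 / 1000 := by
    rw [hκ, inv_eq_one_div]
    exact one_div_le_one_div_of_le (by norm_num) (le_trans (by norm_num) hS1)
  have hκ1 : κ ≤ 1 := by linarith [show (1 : ℝ) / 1000 ≤ 1 by norm_num]
  have hμκ : μ = κ * lam := by
    rw [hμ, hlam]
    linear_combination (-(R : ℝ) ^ 2) * hκS
  have hμ0 : 0 < μ := by rw [hμ]; positivity
  have hμR : (R : ℝ) ≤ μ := by rw [hμ]; nlinarith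
  have hlam0 : 0 < lam := by rw [hlam]; positivity
  have hlam3 : lam ≤ (R : ℝ) ^ 3 := by
    rw [hlam, pow_succ (R : ℝ) 2]
    exact mul_le_mul_of_nonneg_left hSR (by positivity)
  have hexp : ∀ b : ℝ, 0 ≤ b → Real.exp (b * R) ≤ Real.exp (b * μ) := fun b hb =>
    Real.exp_le_exp.2 (mul_le_mul_of_nonneg_left hμR hb)
  -- choice of `K₀`
  obtain ⟨N, hN⟩ := eventually_atTop.1 ((eventually_ge_atTop K₁).and
    ((eventually_ge_atTop (10 ^ 6)).and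
    (((tendsto_natCast_atTop_atTop (R := ℝ)).eventually_ge_atTop (1 / D)).and
    ((tendsto_natCast_atTop_atTop (R := ℝ)).eventually_ge_atTop (1 / ν)))))
  obtain ⟨hK1, hK2, hK3, hK4⟩ := hN (20 * N) (by omega)
  obtain ⟨K₀, hK₀⟩ : ∃ K₀ : ℕ, K₀ = 20 * N := ⟨_, rfl⟩
  rw [← hK₀] at hK1 hK2 hK3 hK4
  have hKr : (10 : ℝ) ^ 6 ≤ K₀ := by exact_mod_cast hK2
  have hK0 : (0 : ℝ) < K₀ := by linarith [show (0 : ℝ) < 10 ^ 6 by norm_num]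
  have hK1' : (1 : ℝ) ≤ K₀ := by linarith [show (1 : ℝ) ≤ 10 ^ 6 by norm_num]
  obtain ⟨Z, hZ⟩ : ∃ Z : ℝ, Z = √(K₀ : ℝ) := ⟨_, rfl⟩
  have hZ1 : 1 ≤ Z := by rw [hZ, Real.one_le_sqrt]; exact hK1'
  have hZ0 : 0 < Z := by linarith
  have hRn : ∀ n : ℕ, (1 : ℝ) ≤ (R : ℝ) ^ n := fun n => one_le_pow₀ hR1'
  have hRp : (R : ℝ) ^ p ≤ Real.exp (1 / 10000 * μ) := by
    have := hR3.trans (hexp (1 / 10000) (by norm_num))
    linarith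
  have hRp0 : (0 : ℝ) < (R : ℝ) ^ p := by positivity
  obtain ⟨P, hP⟩ : ∃ P : ℝ, P = ν * (2 * Real.pi) ^ 2 := ⟨_, rfl⟩
  have hpi := Real.pi_gt_three
  have hP0 : 0 < P := by rw [hP]; positivity
  have hPν : ν ≤ P := by
    rw [hP]
    have h1 : 1 ≤ (2 * Real.pi) ^ 2 := by nlinarith
    nlinarith
  obtain ⟨A, hA⟩ : ∃ A : ℝ, A = 10 / 9 * P * ϱ * (R : ℝ) ^ 2 / (β * Z) := ⟨_, rfl⟩
  have hϱ0 : 0 < ϱ := by linarith
  have hA0 : 0 < A := by rw [hA]; positivity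
  have hAβ : A * (β * Z) = 10 / 9 * P * ϱ * (R : ℝ) ^ 2 := by
    rw [hA]
    field_simp
  -- the square roots
  have hsq : ∀ n : ℕ, √((K₀ : ℝ) * R ^ n) = Z * S ^ n := by
    intro n
    rw [hZ, Real.sqrt_mul hK0.le]
    congr 1
    rw [Real.sqrt_eq_iff_mul_self_eq (by positivity) (by positivity), ← hS2]
    ring
  have hLn : ∀ n : ℕ, A * (β * (((K₀ : ℝ) * R ^ n) ^ 2 * √((K₀ : ℝ) * R ^ n)))
      = 10 / 9 * P * ϱ * (R : ℝ) ^ 2 * (((K₀ : ℝ) * R ^ n) ^ 2 * S ^ n) := by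
    intro n
    rw [hsq, ← hAβ]
    ring
  have hkL : ∀ n : ℕ, κ ^ n * (A * (β * (((K₀ : ℝ) * R ^ n) ^ 2 * √((K₀ : ℝ) * R ^ n))))
      = 10 / 9 * P * ϱ * ((K₀ : ℝ) * R ^ (n + 1)) ^ 2 := by
    intro n
    rw [hLn]
    have h1 : κ ^ n * S ^ n = 1 := by rw [← mul_pow, hκS, one_pow]
    rw [pow_succ (R : ℝ) n]
    linear_combination (10 / 9 * P * ϱ * (R : ℝ) ^ 2 * ((K₀ : ℝ) * R ^ n) ^ 2) * h1
  have hnuP : ∀ x : ℝ, ν * ((2 * Real.pi) ^ 2 * x) = P * x := by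
    intro x
    rw [hP]
    ring
  refine ⟨K₀, R, κ, μ, lam, κ * Real.exp (-(6 / 100 * μ)), A, hK1, ⟨N, hK₀⟩, hK2, hR1,
    le_trans (by norm_num) hR2, by rw [hlam, hS], hμ,
    mul_pos hκ0 (Real.exp_pos _), ?_, hA0, ?_, ?_, ?_, ?_⟩
  · -- γ R^p ≤ 1
    calc κ * Real.exp (-(6 / 100 * μ)) * (R : ℝ) ^ p
        ≤ 1 * Real.exp (-(6 / 100 * μ)) * Real.exp (1 / 10000 * μ) := by gcongr
      _ = Real.exp (-(6 / 100 * μ) + 1 / 10000 * μ) := by rw [one_mul, ← Real.exp_add]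
      _ ≤ 1 := by
          rw [Real.exp_le_one_iff]
          linarith
  · -- D K₀ √K₀
    rw [← hZ]
    have h1 : 1 ≤ D * (K₀ : ℝ) := by
      rw [div_le_iff₀ hD] at hK3
      linarith
    nlinarith [mul_pos hD hK0]
  · -- R √R ≤ exp D
    rw [← hS]
    have h1 : 1 / D * (R : ℝ) ^ 2 ≤ Real.exp (μ / 1000) := by
      have := hF5.out.trans (hexp (1 / 1000) (by norm_num))
      rwa [show 1 / 1000 * μ = μ / 1000 by ring] at this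
    calc (R : ℝ) * S ≤ R * R := mul_le_mul_of_nonneg_left hSR hR0.le
      _ = (1 / D * (R : ℝ) ^ 2) * D := by field_simp
      _ ≤ Real.exp (μ / 1000) * D := mul_le_mul_of_nonneg_right h1 hD.le
  · -- 10^9 ≤ κ R √R
    rw [← hS]
    have h1 : κ * ((R : ℝ) * S) = R := by linear_combination (R : ℝ) * hκS
    rw [h1]
    exact le_trans (by norm_num) hRr
  · intro C ℓ B hC1 hC2 hB1 hB2 hℓ
    refine ⟨hκ0, hκ1, hκs, hμκ, ?_, ?_, ?_, ?_, hμ.symm, ?_, ?_, ?_, ?_, hB1, hB2, ?_, ?_⟩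
    · -- 10^30 ≤ μ
      calc (10 : ℝ) ^ 30 = ((10 : ℝ) ^ 15) ^ 2 := by norm_num
        _ ≤ (R : ℝ) ^ 2 := by gcongr
        _ = μ := hμ.symm
    · -- 1 ≤ L 0
      show 1 ≤ A * (β * (((K₀ : ℝ) * R ^ 0) ^ 2 * √((K₀ : ℝ) * R ^ 0)))
      rw [hLn]
      simp only [pow_zero, mul_one]
      have h1 : 1 ≤ ν * (K₀ : ℝ) := by
        rw [div_le_iff₀ hν] at hK4
        linarith
      have h2 : 1 ≤ (R : ℝ) ^ 2 := hRn 2
      calc (1 : ℝ) ≤ ν * (K₀ : ℝ) := h1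
        _ ≤ P * (K₀ : ℝ) ^ 2 := by
            have : (K₀ : ℝ) ≤ (K₀ : ℝ) ^ 2 := by nlinarith
            calc ν * (K₀ : ℝ) ≤ P * (K₀ : ℝ) := mul_le_mul_of_nonneg_right hPν hK0.le
              _ ≤ P * (K₀ : ℝ) ^ 2 := mul_le_mul_of_nonneg_left this hP0.le
        _ = 1 * P * 1 * 1 * (K₀ : ℝ) ^ 2 := by ring
        _ ≤ 10 / 9 * P * ϱ * (R : ℝ) ^ 2 * (K₀ : ℝ) ^ 2 := by
            gcongr
            norm_num
    · -- L (n+1) = lam * L n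
      intro n
      show A * (β * (((K₀ : ℝ) * R ^ (n + 1)) ^ 2 * √((K₀ : ℝ) * R ^ (n + 1))))
        = lam * (A * (β * (((K₀ : ℝ) * R ^ n) ^ 2 * √((K₀ : ℝ) * R ^ n))))
      rw [hLn, hLn, hlam]
      ring
    · exact le_trans (by norm_num) hRr
    · have : 0 ≤ 100 * (R : ℝ) ^ 3 / β := by positivity
      linarith
    · -- exp_big
      have h1 : 1 + 100 * (R : ℝ) ^ 3 / β ≤ (1 + 100 / β) * (R : ℝ) ^ 3 := by
        have h2 : (1 : ℝ) ≤ (R : ℝ) ^ 3 := hRn 3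
        have h3 : (1 + 100 / β) * (R : ℝ) ^ 3 = (R : ℝ) ^ 3 + 100 * (R : ℝ) ^ 3 / β := by
          ring
        rw [h3]
        linarith
      have h2 := hF6.out.trans (hexp (1 / 10 ^ 6) (by norm_num))
      rw [show 1 / (10 : ℝ) ^ 6 * μ = μ / 10 ^ 6 by ring, hFc.out] at h2
      calc (10 ^ 6 * (1 + 100 * (R : ℝ) ^ 3 / β) ^ 4 * lam ^ 3) ^ 10
          ≤ (10 ^ 6 * ((1 + 100 / β) * (R : ℝ) ^ 3) ^ 4 * ((R : ℝ) ^ 3) ^ 3) ^ 10 := by gcongr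
        _ = (10 ^ 6 * (1 + 100 / β) ^ 4 * (R : ℝ) ^ 21) ^ 10 := by
            congr 1
            rw [mul_pow (1 + 100 / β)]
            ring
        _ = (10 ^ 6 * (1 + 100 / β) ^ 4) ^ 10 * (R : ℝ) ^ 210 := by
            rw [mul_pow _ ((R : ℝ) ^ 21), ← pow_mul]
        _ ≤ _ := h2
    · -- C_lo
      intro n
      have h1 := hC1 n
      have h2 : κ * Real.exp (-(601 / 10000 * μ)) * (R : ℝ) ^ p ≤ C n * (R : ℝ) ^ p := by
        calc κ * Real.exp (-(601 / 10000 * μ)) * (R : ℝ) ^ p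
            ≤ κ * Real.exp (-(601 / 10000 * μ)) * Real.exp (1 / 10000 * μ) := by gcongr
          _ = κ * Real.exp (-(6 / 100 * μ)) := by
              rw [mul_assoc, ← Real.exp_add]; congr 2; ring
          _ ≤ _ := h1
      exact le_of_mul_le_mul_right h2 hRp0
    · -- C_hi
      intro n
      calc C n ≤ κ * Real.exp (-(6 / 100 * μ)) * (R : ℝ) ^ p := hC2 n
        _ ≤ κ * Real.exp (-(6 / 100 * μ)) * Real.exp (1 / 10000 * μ) := by gcongr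
        _ = κ * Real.exp (-(599 / 10000 * μ)) := by
            rw [mul_assoc, ← Real.exp_add]; congr 2; ring
    · -- ℓ_zero
      show |ℓ 0 * μ - 9 / 10 * (A * (β * (((K₀ : ℝ) * R ^ 0) ^ 2 * √((K₀ : ℝ) * R ^ 0))))| ≤
        1 / 10 ^ 4 * (A * (β * (((K₀ : ℝ) * R ^ 0) ^ 2 * √((K₀ : ℝ) * R ^ 0))))
      have h1 := hℓ 0
      rw [hnuP, hnuP] at h1
      rw [hLn]
      simp only [pow_zero, mul_one] at h1 ⊢
      have e1 : ℓ 0 * μ - 9 / 10 * (10 / 9 * P * ϱ * (R : ℝ) ^ 2 * (K₀ : ℝ) ^ 2) =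
          (ℓ 0 - P * (ϱ * (K₀ : ℝ) ^ 2)) * μ := by
        rw [hμ]
        ring
      rw [e1, abs_mul, abs_of_pos hμ0]
      calc |ℓ 0 - P * (ϱ * (K₀ : ℝ) ^ 2)| * μ
          ≤ (1 / 10 ^ 5 * (P * (K₀ : ℝ) ^ 2)) * μ := mul_le_mul_of_nonneg_right h1 hμ0.le
        _ = (1 / 10 ^ 5 * 1) * (P * (R : ℝ) ^ 2 * (K₀ : ℝ) ^ 2) := by rw [hμ]; ring
        _ ≤ (1 / 10 ^ 4 * (10 / 9 * ϱ)) * (P * (R : ℝ) ^ 2 * (K₀ : ℝ) ^ 2) := by
            apply mul_le_mul_of_nonneg_right _ (by positivity)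
            linarith
        _ = _ := by ring
    · -- ℓ_succ
      intro n
      show |ℓ (n + 1) - 9 / 10 *
          (κ ^ n * (A * (β * (((K₀ : ℝ) * R ^ n) ^ 2 * √((K₀ : ℝ) * R ^ n)))))| ≤
        1 / 10 ^ 4 * (κ ^ n * (A * (β * (((K₀ : ℝ) * R ^ n) ^ 2 * √((K₀ : ℝ) * R ^ n)))))
      have h1 := hℓ (n + 1)
      rw [hnuP, hnuP] at h1
      rw [hkL]
      have e1 : ℓ (n + 1) - 9 / 10 * (10 / 9 * P * ϱ * ((K₀ : ℝ) * R ^ (n + 1)) ^ 2) =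
          ℓ (n + 1) - P * (ϱ * ((K₀ : ℝ) * R ^ (n + 1)) ^ 2) := by
        ring
      rw [e1]
      calc |ℓ (n + 1) - P * (ϱ * ((K₀ : ℝ) * R ^ (n + 1)) ^ 2)|
          ≤ 1 / 10 ^ 5 * (P * ((K₀ : ℝ) * R ^ (n + 1)) ^ 2) := h1
        _ = (1 / 10 ^ 5 * 1) * (P * ((K₀ : ℝ) * R ^ (n + 1)) ^ 2) := by ring
        _ ≤ (1 / 10 ^ 4 * (10 / 9 * ϱ)) * (P * ((K₀ : ℝ) * R ^ (n + 1)) ^ 2) := by
            apply mul_le_mul_of_nonneg_right _ (by positivity)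
            linarith
        _ = _ := by ring

end Pool.Agent.Y455.NS
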